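import Mathlib

namespace Pool.Agent.H569Z.Zak

open Polynomial

section
variable {C D : Type} [CommRing C] [CommRing D]

/-- the quartic equation of the threefold -/
def rD (w : Fin 8 → C) : C := w 2 ^ 2 * w 4 * w 6 - w 1 * w 3 * w 5 ^ 2

/-- eight equations of the fourfold -/
def rel (w : Fin 8 → C) : Fin 8 → C :=
  ![rD w, w 0 ^ 2 * w 7 ^ 2 - w 1 * w 3 * w 4 * w 6,
    w 0 * w 7 * w 1 - ((w 1 * w 3 + w 2 ^ 2) * w 4 + w 1 * w 2 * w 5),
    w 0 * w 7 * w 2 - w 1 * w 3 * w 5,
    w 0 * w 7 * w 3 - ((w 1 * w 3 - w 2 ^ 2) * w 6 - w 2 * w 3 * w 5),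
    w 0 * w 7 * w 4 - (w 1 * w 4 * w 6 - w 1 * w 5 ^ 2 - w 2 * w 4 * w 5),
    w 0 * w 7 * w 5 - w 2 * w 4 * w 6,
    w 0 * w 7 * w 6 - (w 3 * w 4 * w 6 + w 3 * w 5 ^ 2 + w 2 * w 5 * w 6)]

theorem map_rD (f : C →+* D) (w : Fin 8 → C) : f (rD w) = rD (fun i => f (w i)) := by
  simp [rD]

theorem map_rel (f : C →+* D) (w : Fin 8 → C) (k : Fin 8) :
    f (rel w k) = rel (fun i => f (w i)) k := by
  fin_cases k <;> simp [rel, rD]

/-- the point `(1, u, 0)` -/
def pt (u : Fin 6 → C) : Fin 8 → C := ![1, u 0, u 1, u 2, u 3, u 4, u 5, 0]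

theorem map_pt (f : C →+* D) (u : Fin 6 → C) (i : Fin 8) :
    f (pt u i) = pt (fun j => f (u j)) i := by
  fin_cases i <;> simp [pt]

theorem nilp (u : Fin 6 → C) (O : Fin 8 → C) (t : C) (h1 : ∀ i j, u i * u j = 0)
    (h2 : ∀ i, u i * t ^ 2 = 0) (hr : ∀ k, rel (fun i => pt u i + O i * t) k = 0)
    (hD : IsUnit (rD O)) (h7 : IsUnit (O 7)) : t ^ 2 = 0 ∧ ∀ i, u i * t = 0 := by
  have T : ∀ (i j k : Fin 6) (a b c : C),
      (u i + a * t) * (u j + b * t) * (u k + c * t) = a * b * c * t ^ 3 := by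
    intro i j k a b c
    linear_combination (u k + c * t) * h1 i j + b * t * h1 i k + a * t * h1 j k + b * c * h2 i
      + a * c * h2 j + a * b * h2 k
  have r0 := hr 0
  have r1 := hr 1
  have r2 := hr 2
  have r3 := hr 3
  have r4 := hr 4
  have r5 := hr 5
  have r6 := hr 6
  have r7 := hr 7
  simp [rel, rD, pt] at r0 r1 r2 r3 r4 r5 r6 r7
  have e4 : rD O * t ^ 4 = 0 := by
    unfold rD
    linear_combination r0 - (u 5 + O 6 * t) * T 1 1 3 (O 2) (O 2) (O 4)
      + (u 4 + O 5 * t) * T 0 2 4 (O 1) (O 3) (O 5) - O 2 * O 2 * O 4 * t * h2 5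
      + O 1 * O 3 * O 5 * t * h2 4
  have t4 : t ^ 4 = 0 := (hD.mul_right_eq_zero).mp e4
  have e2 : (O 7 * (1 + O 0 * t)) ^ 2 * t ^ 2 = 0 := by
    linear_combination r1 + (u 5 + O 6 * t) * T 0 2 3 (O 1) (O 3) (O 4)
      + O 1 * O 3 * O 4 * t * h2 5 + O 1 * O 3 * O 4 * O 6 * t4
  have hu : IsUnit (1 + O 0 * t) := by
    refine IsUnit.of_mul_eq_one (1 - O 0 * t + O 0 ^ 2 * t ^ 2 - O 0 ^ 3 * t ^ 3) ?_
    linear_combination (-O 0 ^ 4) * t4
  have hv : IsUnit (O 7 * (1 + O 0 * t)) := h7.mul hu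
  have t2 : t ^ 2 = 0 := ((hv.pow 2).mul_right_eq_zero).mp e2
  have t3 : t ^ 3 = 0 := by linear_combination t * t2
  simp only [t3, mul_zero] at T
  refine ⟨t2, fun i => (hv.mul_right_eq_zero).mp ?_⟩
  fin_cases i
  · simp only [Fin.zero_eta]
    linear_combination r2 + T 0 2 3 (O 1) (O 3) (O 4) + T 1 1 3 (O 2) (O 2) (O 4)
      + T 0 1 4 (O 1) (O 2) (O 5) - O 7 * (1 + O 0 * t) * O 1 * t2
  · simp only [Fin.mk_one]
    linear_combination r3 + T 0 2 4 (O 1) (O 3) (O 5) - O 7 * (1 + O 0 * t) * O 2 * t2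
  · simp only [Fin.reduceFinMk]
    linear_combination r4 + T 0 2 5 (O 1) (O 3) (O 6) - T 1 1 5 (O 2) (O 2) (O 6)
      - T 1 2 4 (O 2) (O 3) (O 5) - O 7 * (1 + O 0 * t) * O 3 * t2
  · simp only [Fin.reduceFinMk]
    linear_combination r5 + T 0 3 5 (O 1) (O 4) (O 6) - T 0 4 4 (O 1) (O 5) (O 5)
      - T 1 3 4 (O 2) (O 4) (O 5) - O 7 * (1 + O 0 * t) * O 4 * t2
  · simp only [Fin.reduceFinMk]
    linear_combination r6 + T 1 3 5 (O 2) (O 4) (O 6) - O 7 * (1 + O 0 * t) * O 5 * t2
  · simp only [Fin.reduceFinMk]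
    linear_combination r7 + T 2 3 5 (O 3) (O 4) (O 6) + T 2 4 4 (O 3) (O 5) (O 5)
      + T 1 4 5 (O 2) (O 5) (O 6) - O 7 * (1 + O 0 * t) * O 6 * t2

end

/-- Nakayama step. -/
theorem nak {R B : Type} [CommRing R] [IsNoetherianRing R] [CommRing B] [Algebra R B]
    [Module.Finite R B] (u : Fin 6 → R) (O : Fin 8 → R) (t : B)
    (hgen : ∀ b : B, ∃ r : R, ∃ b' : B, b = algebraMap R B r + t * b')
    (hr : ∀ k, rel (fun i => algebraMap R B (pt u i) + algebraMap R B (O i) * t) k = 0)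
    (hD : IsUnit (rD O)) (h7 : IsUnit (O 7)) :
    ∃ G : R, G - 1 ∈ Ideal.span (Set.range u) ∧
      ∀ i, ∃ r : R, algebraMap R B (G * u i) * t = algebraMap R B r := by
  set m : Ideal R := Ideal.span (Set.range u) with hm
  have hum : ∀ i, u i ∈ m := fun i => Ideal.subset_span ⟨i, rfl⟩
  set a : Fin 6 → B := fun i => algebraMap R B (u i) with ha
  set T : Ideal B := Ideal.span (insert (t ^ 2) (Set.range fun i => a i * t)) with hT
  set I0 : Ideal B := Ideal.span ((Set.range fun p : Fin 6 × Fin 6 => a p.1 * a p.2) ∪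
    Set.range fun i => a i * t ^ 2) with hI0
  have hTI : T ≤ I0 := by
    let f : R →+* B ⧸ I0 := (Ideal.Quotient.mk I0).comp (algebraMap R B)
    have key := nilp (fun i => f (u i)) (fun i => f (O i)) (Ideal.Quotient.mk I0 t)
      (fun i j => by
        show Ideal.Quotient.mk I0 (a i) * Ideal.Quotient.mk I0 (a j) = 0
        rw [← map_mul, Ideal.Quotient.eq_zero_iff_mem]
        exact Ideal.subset_span (Or.inl ⟨(i, j), rfl⟩))
      (fun i => by
        show Ideal.Quotient.mk I0 (a i) * Ideal.Quotient.mk I0 t ^ 2 = 0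
        rw [← map_pow, ← map_mul, Ideal.Quotient.eq_zero_iff_mem]
        exact Ideal.subset_span (Or.inr ⟨i, rfl⟩))
      (fun k => by
        have := congrArg (Ideal.Quotient.mk I0) (hr k)
        rw [map_rel, map_zero] at this
        rw [← this]
        congr 1
        funext i
        rw [← map_pt f]
        simp [f])
      (by rw [← map_rD]; exact hD.map f) (h7.map f)
    rw [hT, Ideal.span_le]
    rintro x (rfl | ⟨i, rfl⟩)
    · have := key.1
      rwa [← map_pow, Ideal.Quotient.eq_zero_iff_mem] at this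
    · have := key.2 i
      change Ideal.Quotient.mk I0 (a i) * Ideal.Quotient.mk I0 t = 0 at this
      rwa [← map_mul, Ideal.Quotient.eq_zero_iff_mem] at this
  set P : Submodule R B := LinearMap.range (Algebra.linearMap R B) with hP
  set N : Submodule R B := T.restrictScalars R with hN
  have hIK : ∀ x ∈ I0, ∀ b : B, b * x ∈ P ⊔ m • N := by
    intro x hx
    induction hx using Submodule.span_induction with
    | mem x hx =>
      intro b
      rcases hx with ⟨⟨i, j⟩, rfl⟩ | ⟨i, rfl⟩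
      · obtain ⟨r, b', rfl⟩ := hgen b
        have : (algebraMap R B r + t * b') * (a i * a j) =
            algebraMap R B (r * u i * u j) + u i • (b' * (a j * t)) := by
          simp only [Algebra.smul_def, map_mul, ha]; ring
        rw [this]
        refine Submodule.add_mem_sup ⟨_, rfl⟩ (Submodule.smul_mem_smul (hum i) ?_)
        exact T.mul_mem_left _ (Ideal.subset_span (Or.inr ⟨j, rfl⟩))
      · have : b * (a i * t ^ 2) = u i • (b * t ^ 2) := by
          simp only [Algebra.smul_def, ha]; ring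
        rw [this]
        refine Submodule.mem_sup_right (Submodule.smul_mem_smul (hum i) ?_)
        exact T.mul_mem_left _ (Ideal.subset_span (Or.inl rfl))
    | zero => intro b; simp
    | add x y _ _ hx hy => intro b; rw [mul_add]; exact Submodule.add_mem _ (hx b) (hy b)
    | smul c x _ hx => intro b; rw [smul_eq_mul, ← mul_assoc]; exact hx _
  have hle : N.map P.mkQ ≤ m • N.map P.mkQ := by
    rw [← Submodule.map_smul'']
    rintro _ ⟨x, hx, rfl⟩
    have := hIK x (hTI hx) 1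
    rw [one_mul] at this
    obtain ⟨p, hp, q, hq, rfl⟩ := Submodule.mem_sup.mp this
    refine ⟨q, hq, ?_⟩
    have : P.mkQ p = 0 := by simpa using hp
    rw [map_add, this, zero_add]
  obtain ⟨G, hG1, hG2⟩ := Submodule.exists_sub_one_mem_and_smul_eq_zero_of_fg_of_le_smul m _
    (IsNoetherian.noetherian (N.map P.mkQ)) hle
  refine ⟨G, hG1, fun i => ?_⟩
  have h := hG2 (P.mkQ (a i * t)) ⟨_, Ideal.subset_span (Or.inr ⟨i, rfl⟩), rfl⟩
  rw [← map_smul, Submodule.mkQ_apply, Submodule.Quotient.mk_eq_zero] at h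
  obtain ⟨r, hr'⟩ := h
  refine ⟨r, ?_⟩
  rw [Algebra.linearMap_apply, Algebra.smul_def] at hr'
  rw [hr', map_mul, mul_assoc]

/-- the coordinate ring of the affine chart -/
abbrev R : Type := MvPolynomial (Fin 6) ℂ

/-- The isolating polynomial. -/
theorem core (o : Fin 8 → ℂ) (hD : rD o ≠ 0) (h7 : o 7 ≠ 0) :
    ∃ G : MvPolynomial (Fin 6) ℂ, MvPolynomial.eval 0 G = 1 ∧
      ∀ (A : Type) [CommRing A] [Algebra ℂ A] (t : A) (u : Fin 6 → ℂ), u ≠ 0 →
        MvPolynomial.eval u G ≠ 0 →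
        (∀ k, rel (fun i => algebraMap ℂ A (pt u i) + algebraMap ℂ A (o i) * t) k = 0) →
        ∃ c : ℂ, t = algebraMap ℂ A c := by
  let O : Fin 8 → R := fun i => MvPolynomial.C (o i)
  let w : Fin 8 → R[X] := fun i => C (pt MvPolynomial.X i) + C (O i) * X
  let J : Ideal R[X] := Ideal.span (Set.range (rel w))
  have hDu : IsUnit (rD O) := by
    have := map_rD (MvPolynomial.C : ℂ →+* R) o
    rw [← this]
    exact (IsUnit.mk0 _ hD).map _
  have hfin : Module.Finite R (R[X] ⧸ J) := by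
    have hdeg : (rD w).natDegree ≤ 4 := by
      simp only [rD, w]
      compute_degree
    have hco : (rD w).coeff 4 = rD O := by
      have e : rD w = C (rD O) * X ^ 4 + (rD w - C (rD O) * X ^ 4) := by ring
      have e2 : (rD w - C (rD O) * X ^ 4).natDegree ≤ 3 := by
        have : rD w - C (rD O) * X ^ 4 =
            C (O 2 * O 2 * O 4 * MvPolynomial.X 5 + O 2 * O 2 * MvPolynomial.X 3 * O 6
              + 2 * O 2 * MvPolynomial.X 1 * O 4 * O 6 - 2 * O 1 * O 3 * O 5 * MvPolynomial.X 4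
              - O 1 * MvPolynomial.X 2 * O 5 ^ 2 - MvPolynomial.X 0 * O 3 * O 5 ^ 2) * X ^ 3
            + ((w 2 - C (O 2) * X) ^ 2 * w 4 * w 6
              + 2 * (w 2 - C (O 2) * X) * C (O 2) * X * ((w 4 - C (O 4) * X) * w 6
                + C (O 4) * X * (w 6 - C (O 6) * X))
              + C (O 2) ^ 2 * X ^ 2 * (w 4 - C (O 4) * X) * (w 6 - C (O 6) * X)
              - (w 5 - C (O 5) * X) ^ 2 * w 1 * w 3
              - 2 * (w 5 - C (O 5) * X) * C (O 5) * X * ((w 1 - C (O 1) * X) * w 3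
                + C (O 1) * X * (w 3 - C (O 3) * X))
              - C (O 5) ^ 2 * X ^ 2 * (w 1 - C (O 1) * X) * (w 3 - C (O 3) * X)) := by
          simp only [rD, w, pt, map_add, map_mul, map_sub, map_pow, map_ofNat]
          simp
          ring
        rw [this]
        simp only [w, add_sub_cancel_right]
        compute_degree
      have e3 := coeff_eq_zero_of_natDegree_lt (lt_of_le_of_lt e2 (by norm_num : 3 < 4))
      rw [e, coeff_add, e3, add_zero, coeff_C_mul, coeff_X_pow, if_pos rfl, mul_one]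
    obtain ⟨v, hv⟩ := hDu.exists_left_inv
    have hmon : (C v * rD w).Monic := by
      refine monic_of_natDegree_le_of_coeff_eq_one 4 ?_ ?_
      · exact (natDegree_C_mul_le _ _).trans hdeg
      · rw [coeff_C_mul, hco, hv]
    have hle : Ideal.span {C v * rD w} ≤ J := by
      rw [Ideal.span_le, Set.singleton_subset_iff]
      exact J.mul_mem_left _ (Ideal.subset_span ⟨0, rfl⟩)
    have : Module.Finite R (R[X] ⧸ Ideal.span {C v * rD w}) := hmon.finite_quotient
    exact Module.Finite.of_surjective (Ideal.Quotient.factorₐ R hle).toLinearMap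
      (Ideal.Quotient.factor_surjective hle)
  obtain ⟨G, hG1, hG2⟩ := nak (R := R) (B := R[X] ⧸ J) MvPolynomial.X O (Ideal.Quotient.mk J X)
    (fun b => by
      obtain ⟨p, rfl⟩ := Ideal.Quotient.mk_surjective b
      refine ⟨p.coeff 0, Ideal.Quotient.mk J p.divX, ?_⟩
      conv_lhs => rw [← X_mul_divX_add p]
      rw [map_add, map_mul, add_comm]
      rfl)
    (fun k => by
      have : Ideal.Quotient.mk J (rel w k) = 0 :=
        Ideal.Quotient.eq_zero_iff_mem.mpr (Ideal.subset_span ⟨k, rfl⟩)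
      have h2 := map_rel (C := R[X]) (D := R[X] ⧸ J) (Ideal.Quotient.mk J) w k
      exact h2.symm.trans this)
    hDu ((IsUnit.mk0 _ h7).map (MvPolynomial.C : ℂ →+* R))
  refine ⟨G, ?_, ?_⟩
  · have : MvPolynomial.eval (0 : Fin 6 → ℂ) (G - 1) = 0 := by
      have hle : Ideal.span (Set.range (MvPolynomial.X : Fin 6 → R)) ≤
          RingHom.ker (MvPolynomial.eval (0 : Fin 6 → ℂ)) := by
        rw [Ideal.span_le]
        rintro _ ⟨i, rfl⟩
        simp [RingHom.mem_ker]
      exact hle hG1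
    rw [map_sub, map_one, sub_eq_zero] at this
    exact this
  · intro A _ _ t u hu hG hr
    obtain ⟨i, hi⟩ := Function.ne_iff.mp hu
    let f : R →+* A := (algebraMap ℂ A).comp (MvPolynomial.eval u)
    let g : R[X] →+* A := eval₂RingHom f t
    have hg : ∀ p ∈ J, g p = 0 := by
      have : J ≤ RingHom.ker g := by
        rw [Ideal.span_le]
        rintro _ ⟨k, rfl⟩
        rw [SetLike.mem_coe, RingHom.mem_ker, map_rel, ← hr k]
        congr 1
        funext j
        simp only [w, g, coe_eval₂RingHom, eval₂_add, eval₂_C, eval₂_mul, eval₂_X, f, O,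
          RingHom.comp_apply, MvPolynomial.eval_C, map_pt (MvPolynomial.eval u),
          MvPolynomial.eval_X]
      exact this
    obtain ⟨r, hr'⟩ := hG2 i
    have hr2 : C (G * MvPolynomial.X i) * X - C r ∈ J := by
      rw [← Ideal.Quotient.eq]
      exact hr'
    have h := hg _ hr2
    have e : ∀ s : R, g (C s) = f s := by
      intro s
      simp [g]
    have e2 : g X = t := by simp [g]
    rw [map_sub, map_mul g, e, e, e2, sub_eq_zero] at h
    have hne : MvPolynomial.eval u G * u i ≠ 0 := mul_ne_zero hG hi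
    refine ⟨(MvPolynomial.eval u G * u i)⁻¹ * MvPolynomial.eval u r, ?_⟩
    have h' : algebraMap ℂ A (MvPolynomial.eval u G * u i) * t =
        algebraMap ℂ A (MvPolynomial.eval u r) := by
      simpa [f] using h
    rw [map_mul (algebraMap ℂ A), ← h', ← mul_assoc, ← map_mul, inv_mul_cancel₀ hne, map_one,
      one_mul]

end Pool.Agent.H569Z.Zak
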