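import Mathlib

/-!
Projective varieties over `ℂ`, linear projections from a point and their multiple loci.
-/

namespace Pool.Agent.H569Z.Zak

/-- Complex projective `N`-space. -/
abbrev PP (N : ℕ) : Type := Projectivization ℂ (Fin (N + 1) → ℂ)

/-- The Zariski topology of `P^N`: generated by the non-vanishing loci of homogeneous forms. -/
@[reducible] def zar (N : ℕ) : TopologicalSpace (PP N) :=
  TopologicalSpace.generateFrom
    {U | ∃ (d : ℕ) (F : MvPolynomial (Fin (N + 1)) ℂ), F.IsHomogeneous d ∧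
      U = {p | MvPolynomial.eval p.rep F ≠ 0}}

/-- The homogeneous ideal `I(X)`, generated by the forms vanishing on `X`. -/
noncomputable def homIdeal {N : ℕ} (X : Set (PP N)) : Ideal (MvPolynomial (Fin (N + 1)) ℂ) :=
  Ideal.span {F | (∃ d, F.IsHomogeneous d) ∧ ∀ p ∈ X, MvPolynomial.eval p.rep F = 0}

/-- `X` is an irreducible closed subset of `P^N` of dimension `n`: its homogeneous coordinate ring
has Krull dimension `n + 1`. -/
def IsVariety {N : ℕ} (X : Set (PP N)) (n : ℕ) : Prop :=
  @IsClosed _ (zar N) X ∧ @IsIrreducible _ (zar N) X ∧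
    ringKrullDim (MvPolynomial (Fin (N + 1)) ℂ ⧸ homIdeal X) = ((n + 1 : ℕ) : WithBot ℕ∞)

/-- `X` lies in no hyperplane. -/
def Nondeg {N : ℕ} (X : Set (PP N)) : Prop :=
  ∀ l : Fin (N + 1) → ℂ, (∀ p ∈ X, ∑ i, l i * p.rep i = 0) → l = 0

/-- The length of the scheme cut out by `I(X)` on the affine line `τ ↦ [v + τ o]`, which is the
line through `[o]` and `[v]` with the point `[o]` removed. -/
noncomputable def lineLen {N : ℕ} (X : Set (PP N)) (o v : Fin (N + 1) → ℂ) : Cardinal :=
  Module.rank ℂ (Polynomial ℂ ⧸ (homIdeal X).map (MvPolynomial.aeval (R := ℂ)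
    fun i => Polynomial.C (v i) + Polynomial.C (o i) * Polynomial.X))

/-- The `k`-fold locus `X_k` of the projection of `X` from `O`, given by a linear map `π` with
kernel the line `O`: the points `y` whose scheme-theoretic fibre has length at least `k`. -/
def multLocus {M : ℕ} (X : Set (PP (M + 1))) (O : PP (M + 1))
    (π : (Fin (M + 2) → ℂ) →ₗ[ℂ] (Fin (M + 1) → ℂ)) (k : ℕ) : Set (PP M) :=
  {y | ∃ v, π v = y.rep ∧ (k : Cardinal) ≤ lineLen X O.rep v}

end Pool.Agent.H569Z.Zak
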