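import Pool.Agent.H569Z.Zak.Top

namespace Pool.Agent.H569Z.Zak

open Polynomial

section
variable {C : Type} [CommRing C]

/-- first component of the quintic Cremona map -/
def q1 (x y z : C) : C := x * (x * z - y ^ 2) ^ 2
/-- second component of the quintic Cremona map -/
def q2 (x y z : C) : C := y * (x * z - y ^ 2) * (x * z + y ^ 2)
/-- third component of the quintic Cremona map -/
def q3 (x y z : C) : C := z * (x * z + y ^ 2) ^ 2
/-- the extra sextic -/
def hh (x y z : C) : C := x * z * (x * z - y ^ 2) * (x * z + y ^ 2)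
end

theorem tay1 {n : ℕ} (e : Fin n → ℂ) (F : MvPolynomial (Fin n) ℂ) :
    ∃ (c : ℂ) (G : Fin n → MvPolynomial (Fin n) ℂ), ∀ y : Fin n → ℂ[X],
      MvPolynomial.aeval (fun i => C (e i) + X * y i) F =
        C c + X * ∑ i, MvPolynomial.aeval (fun i => C (e i) + X * y i) (G i) * y i := by
  induction F using MvPolynomial.induction_on with
  | C a => exact ⟨a, 0, fun y => by simp⟩
  | add F1 F2 h1 h2 =>
    obtain ⟨c1, G1, h1⟩ := h1
    obtain ⟨c2, G2, h2⟩ := h2
    refine ⟨c1 + c2, G1 + G2, fun y => ?_⟩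
    rw [map_add, h1, h2]
    simp only [Pi.add_apply, map_add, add_mul, Finset.sum_add_distrib]
    ring
  | mul_X F k h =>
    obtain ⟨c, G, h⟩ := h
    refine ⟨c * e k, fun i => G i * MvPolynomial.X k + if i = k then MvPolynomial.C c else 0,
      fun y => ?_⟩
    rw [map_mul, h]
    simp only [map_add, map_mul, MvPolynomial.aeval_X, add_mul, Finset.sum_add_distrib,
      apply_ite (MvPolynomial.aeval fun i => C (e i) + X * y i), map_zero, ite_mul, zero_mul,
      Finset.sum_ite_eq', Finset.mem_univ, if_true, MvPolynomial.aeval_C, algebraMap_eq]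
    have : ∑ i, (MvPolynomial.aeval fun i => C (e i) + X * y i) (G i) * (C (e k) + X * y k) * y i =
        (∑ i, (MvPolynomial.aeval fun i => C (e i) + X * y i) (G i) * y i) *
          (C (e k) + X * y k) := by
      rw [Finset.sum_mul]
      exact Finset.sum_congr rfl fun i _ => by ring
    rw [this]
    ring

theorem tay3 {n : ℕ} (e : Fin n → ℂ) (F : MvPolynomial (Fin n) ℂ) :
    ∃ (c : ℂ) (l : Fin n → ℂ) (m : Fin n → Fin n → ℂ),
      (∀ o : Fin n → ℂ, ∃ r, MvPolynomial.aeval (fun i => C (e i) + C (o i) * X) F =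
        C c + X * C (∑ i, l i * o i) + X ^ 2 * r) ∧
      ∀ y0 y1 : Fin n → ℂ,
        (∀ τ : ℂ, τ ≠ 0 → MvPolynomial.eval (fun i => e i + τ * (y0 i + τ * y1 i)) F = 0) →
        c = 0 ∧ ∑ i, l i * y0 i = 0 ∧ ∑ i, l i * y1 i + ∑ i, ∑ j, m i j * y0 i * y0 j = 0 := by
  obtain ⟨c, G, hG⟩ := tay1 e F
  choose l H hH using fun i => tay1 e (G i)
  choose m K hK using fun i j => tay1 e (H i j)
  have key : ∀ y : Fin n → ℂ[X], ∃ r, MvPolynomial.aeval (fun i => C (e i) + X * y i) F =
      C c + X * (∑ i, C (l i) * y i + X * (∑ i, ∑ j, C (m i j) * y i * y j + X * r)) := by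
    intro y
    refine ⟨∑ i, ∑ j, (∑ k, MvPolynomial.aeval (fun i => C (e i) + X * y i) (K i j k) * y k) *
      y i * y j, ?_⟩
    rw [hG]
    congr 2
    rw [Finset.mul_sum, ← Finset.sum_add_distrib, Finset.mul_sum, ← Finset.sum_add_distrib]
    refine Finset.sum_congr rfl fun i _ => ?_
    rw [hH, add_mul]
    congr 1
    rw [mul_assoc, Finset.sum_mul]
    congr 1
    rw [Finset.mul_sum, ← Finset.sum_add_distrib]
    refine Finset.sum_congr rfl fun j _ => ?_
    rw [hK]
    ring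
  refine ⟨c, l, m, fun o => ?_, fun y0 y1 h => ?_⟩
  · obtain ⟨r, hr⟩ := key fun i => C (o i)
    refine ⟨∑ i, ∑ j, C (m i j) * C (o i) * C (o j) + X * r, ?_⟩
    simp only [mul_comm (C (o _)) X]
    rw [hr, map_sum]
    simp only [map_mul]
    ring
  · obtain ⟨r, hr⟩ := key fun i => C (y0 i) + X * C (y1 i)
    have h0 : MvPolynomial.aeval (fun i => C (e i) + X * (C (y0 i) + X * C (y1 i))) F = 0 := by
      refine Polynomial.eq_zero_of_infinite_isRoot _ ?_
      refine (Set.Finite.infinite_compl (Set.finite_singleton (0 : ℂ))).mono fun τ hτ => ?_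
      rw [Set.mem_ofPred_eq, IsRoot, ← h τ hτ, ← Polynomial.coe_aeval_eq_eval,
        ← AlgHom.comp_apply, MvPolynomial.comp_aeval]
      simp only [map_add, map_mul, aeval_C, aeval_X, Algebra.algebraMap_self, RingHom.id_apply]
      rfl
    rw [h0] at hr
    have e1 : ∑ i, C (l i) * (C (y0 i) + X * C (y1 i)) =
        C (∑ i, l i * y0 i) + X * C (∑ i, l i * y1 i) := by
      rw [map_sum, map_sum, Finset.mul_sum, ← Finset.sum_add_distrib]
      exact Finset.sum_congr rfl fun i _ => by simp only [map_mul]; ring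
    rw [e1] at hr
    have c0 : c = 0 := by
      have := congrArg (Polynomial.eval 0) hr
      simpa using this.symm
    rw [c0, map_zero, zero_add] at hr
    have hr2 := (mul_eq_zero.mp hr.symm).resolve_left X_ne_zero
    have c1 : ∑ i, l i * y0 i = 0 := by
      have := congrArg (Polynomial.eval 0) hr2
      rwa [eval_add, eval_add, eval_mul, eval_mul, eval_X, zero_mul, zero_mul, add_zero, add_zero,
        eval_C, eval_zero] at this
    rw [c1, map_zero, zero_add, ← mul_add] at hr2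
    have hr3 := (mul_eq_zero.mp hr2).resolve_left X_ne_zero
    refine ⟨c0, c1, ?_⟩
    have := congrArg (Polynomial.eval 0) hr3
    rw [eval_add, eval_add, eval_mul, eval_X, zero_mul, add_zero, eval_C, eval_zero] at this
    rw [← this]
    simp [eval_finsetSum]

/-- every form vanishing on the conics is singular at their common point -/
theorem jet (a : ℂ) (ha : a ≠ 0) {d : ℕ} {F : MvPolynomial (Fin 8) ℂ} (hd : F.IsHomogeneous d)
    (hF : ∀ τ δ x y z : ℂ, τ ≠ 0 → δ ≠ 0 → hh x y z ≠ 0 →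
      MvPolynomial.eval ![a, τ * x, τ * y, τ * z, τ * (δ * q1 x y z), τ * (δ * q2 x y z),
        τ * (δ * q3 x y z), τ * (τ * (δ * hh x y z / a))] F = 0) (o : Fin 8 → ℂ) :
    X ^ 2 ∣ MvPolynomial.aeval (fun i => C ((Pi.single 0 a : Fin 8 → ℂ) i) + C (o i) * X) F := by
  obtain ⟨c, l, m, h1, h2⟩ := tay3 (Pi.single 0 a) F
  have key : ∀ δ x y z : ℂ, δ ≠ 0 → hh x y z ≠ 0 → c = 0 ∧
      (l 1 * x + l 2 * y + l 3 * z + δ * (l 4 * q1 x y z + l 5 * q2 x y z + l 6 * q3 x y z) = 0) ∧
      l 7 * (δ * hh x y z / a) + ∑ i, ∑ j, m i j *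
        (![0, x, y, z, δ * q1 x y z, δ * q2 x y z, δ * q3 x y z, 0] : Fin 8 → ℂ) i *
        (![0, x, y, z, δ * q1 x y z, δ * q2 x y z, δ * q3 x y z, 0] : Fin 8 → ℂ) j = 0 := by
    intro δ x y z hδ hh0
    obtain ⟨k1, k2, k3⟩ := h2 ![0, x, y, z, δ * q1 x y z, δ * q2 x y z, δ * q3 x y z, 0]
      ![0, 0, 0, 0, 0, 0, 0, δ * hh x y z / a] (fun τ hτ => by
        refine Eq.trans ?_ (hF τ δ x y z hτ hδ hh0)
        congr 2
        funext i
        fin_cases i <;> simp)
    refine ⟨k1, ?_, ?_⟩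
    · simp only [Fin.sum_univ_eight] at k2
      simp at k2
      linear_combination k2
    · refine Eq.trans ?_ k3
      congr 1
      simp [Fin.sum_univ_eight]
  have P : ∀ x y z : ℂ, hh x y z ≠ 0 → l 1 * x + l 2 * y + l 3 * z = 0 ∧
      l 4 * q1 x y z + l 5 * q2 x y z + l 6 * q3 x y z = 0 ∧
      l 7 * (hh x y z / a) + ((m 1 4 + m 4 1) * x * q1 x y z + (m 1 5 + m 5 1) * x * q2 x y z
        + (m 1 6 + m 6 1) * x * q3 x y z + (m 2 4 + m 4 2) * y * q1 x y z
        + (m 2 5 + m 5 2) * y * q2 x y z + (m 2 6 + m 6 2) * y * q3 x y z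
        + (m 3 4 + m 4 3) * z * q1 x y z + (m 3 5 + m 5 3) * z * q2 x y z
        + (m 3 6 + m 6 3) * z * q3 x y z) = 0 := by
    intro x y z h
    obtain ⟨-, a1, a2⟩ := key 1 x y z one_ne_zero h
    obtain ⟨-, b1, b2⟩ := key (-1) x y z (by norm_num) h
    simp only [Fin.sum_univ_eight] at a2 b2
    simp at a2 b2
    refine ⟨by linear_combination (a1 + b1) / 2, by linear_combination (a1 - b1) / 2, ?_⟩
    linear_combination (a2 - b2) / 2
  have c0 : c = 0 := (key 1 1 0 2 one_ne_zero (by norm_num [hh])).1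
  obtain ⟨A1, A2, A3⟩ := P 1 0 2 (by norm_num [hh])
  obtain ⟨B1, B2, B3⟩ := P 2 0 1 (by norm_num [hh])
  obtain ⟨C1, C2, C3⟩ := P 1 1 (-2) (by norm_num [hh])
  obtain ⟨-, -, D3⟩ := P 2 1 1 (by norm_num [hh])
  obtain ⟨-, -, E3⟩ := P 2 (-1) 1 (by norm_num [hh])
  obtain ⟨-, -, F3⟩ := P 1 0 (-2) (by norm_num [hh])
  obtain ⟨-, -, G3⟩ := P 1 (-1) (-2) (by norm_num [hh])
  simp only [q1, q2, q3, hh] at A2 A3 B2 B3 C2 C3 D3 E3 F3 G3
  have l1 : l 1 = 0 := by linear_combination (2 * B1 - A1) / 3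
  have l3 : l 3 = 0 := by linear_combination (2 * A1 - B1) / 3
  have l2 : l 2 = 0 := by linear_combination C1 - l1 + 2 * l3
  have l4 : l 4 = 0 := by linear_combination (2 * B2 - A2) / 12
  have l6 : l 6 = 0 := by linear_combination (2 * A2 - B2) / 12
  have l5 : l 5 = 0 := by linear_combination (C2 - 9 * l4 + 2 * l6) / 3
  have l7 : l 7 = 0 := by
    have : l 7 / a = 0 := by
      linear_combination (6 * C3 - 6 * D3 - 6 * E3 - 15 * F3 + 20 * A3 - 5 * B3 + 6 * G3) / 96
    exact (div_eq_zero_iff.mp this).resolve_right ha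
  have l0 : l 0 = 0 := by
    obtain ⟨r, hr⟩ := h1 0
    have e0 : MvPolynomial.eval (Pi.single 0 a : Fin 8 → ℂ) F = 0 := by
      have := congrArg (Polynomial.aeval (0 : ℂ)) hr
      rw [← AlgHom.comp_apply, MvPolynomial.comp_aeval, c0] at this
      simp only [map_add, map_mul, aeval_C, aeval_X, Algebra.algebraMap_self, RingHom.id_apply,
        mul_zero, add_zero, map_zero, zero_mul, map_pow, ne_eq, OfNat.ofNat_ne_zero,
        not_false_eq_true, zero_pow] at this
      exact this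
    have := (h2 (Pi.single 0 1) 0 (fun τ _ => by
      have e : (fun i => (Pi.single 0 a : Fin 8 → ℂ) i + τ * ((Pi.single 0 1 : Fin 8 → ℂ) i
          + τ * (0 : Fin 8 → ℂ) i)) = ((a + τ) / a) • (Pi.single 0 a : Fin 8 → ℂ) := by
        funext i
        fin_cases i <;> simp
        field_simp
      rw [e, eval_smul_hom hd, e0, mul_zero])).2.1
    simpa [Fin.sum_univ_eight] using this
  obtain ⟨r, hr⟩ := h1 o
  rw [hr, c0]
  simp only [Fin.sum_univ_eight, l0, l1, l2, l3, l4, l5, l6, l7, zero_mul, add_zero, map_zero,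
    mul_zero, zero_add]
  exact dvd_mul_right _ _

end Pool.Agent.H569Z.Zak
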