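import Pool.Agent.H569Z.Zak.Var

namespace Pool.Agent.H569Z.Zak

open MvPolynomial

/-- the restricted ideal on a line -/
noncomputable abbrev lineIdeal (o v : Fin 8 → ℂ) : Ideal (Polynomial ℂ) :=
  (homIdeal XX).map (aeval (R := ℂ)
    fun i => Polynomial.C (v i) + Polynomial.C (o i) * Polynomial.X)

theorem two_le_lineLen (o v : Fin 8 → ℂ)
    (h : ∀ (d : ℕ) (F : MvPolynomial (Fin 8) ℂ), F.IsHomogeneous d → Phi F = 0 →
      Polynomial.X ^ 2 ∣ aeval (fun i => Polynomial.C (v i) + Polynomial.C (o i) * Polynomial.X) F) :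
    ((2 : ℕ) : Cardinal) ≤ lineLen XX o v := by
  have hle : lineIdeal o v ≤ Ideal.span {Polynomial.X ^ 2} := by
    rw [lineIdeal, Ideal.map_le_iff_le_comap, homIdeal, Ideal.span_le]
    rintro F ⟨⟨d, hd⟩, hF⟩
    exact Ideal.mem_span_singleton.mpr (h d F hd (Phi_of_vanish hd hF))
  have hli : LinearIndependent ℂ ![Ideal.Quotient.mkₐ ℂ (lineIdeal o v) 1,
      Ideal.Quotient.mkₐ ℂ (lineIdeal o v) Polynomial.X] := by
    rw [LinearIndependent.pair_iff]
    intro s t hst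
    rw [← map_smul, ← map_smul, ← map_add, Ideal.Quotient.mkₐ_eq_mk,
      Ideal.Quotient.eq_zero_iff_mem] at hst
    have := Polynomial.X_pow_dvd_iff.mp (Ideal.mem_span_singleton.mp (hle hst))
    have h0 := this 0 (by norm_num)
    have h1 := this 1 (by norm_num)
    simp [Polynomial.coeff_one, Polynomial.coeff_X] at h0 h1
    exact ⟨h0, h1⟩
  have := hli.cardinal_le_rank
  simpa [lineLen] using this

theorem lineLen_le_one (o v : Fin 8 → ℂ) (c : ℂ)
    (h : Ideal.Quotient.mk (lineIdeal o v) Polynomial.X = algebraMap ℂ _ c) :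
    lineLen XX o v ≤ 1 := by
  rw [lineLen, rank_le_one_iff]
  refine ⟨1, fun b => ?_⟩
  obtain ⟨p, rfl⟩ := Ideal.Quotient.mk_surjective b
  refine ⟨p.eval c, ?_⟩
  have e : Ideal.Quotient.mkₐ ℂ (lineIdeal o v) p =
      Polynomial.aeval (Ideal.Quotient.mkₐ ℂ (lineIdeal o v) Polynomial.X) p := by
    rw [Polynomial.aeval_algHom_apply, Polynomial.aeval_X_left_apply]
  rw [Ideal.Quotient.mkₐ_eq_mk] at e
  rw [e, h, Polynomial.aeval_algebraMap_apply_eq_algebraMap_eval, Algebra.algebraMap_eq_smul_one]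

/-- linear forms vanishing at the centre -/
noncomputable def ell (o : Fin 8 → ℂ) (i : Fin 8) : (Fin 8 → ℂ) →ₗ[ℂ] ℂ :=
  o 7 • LinearMap.proj i - o i • LinearMap.proj 7

theorem ell_apply (o v : Fin 8 → ℂ) (i : Fin 8) : ell o i v = o 7 * v i - o i * v 7 := by
  simp [ell]

/-- the index embedding of the six middle coordinates -/
def ix : Fin 6 → Fin 8 := ![1, 2, 3, 4, 5, 6]

theorem isolated (o : Fin 8 → ℂ) (hD : rD o ≠ 0) (h7 : o 7 ≠ 0) :
    ∃ G : MvPolynomial (Fin 6) ℂ, eval 0 G = 1 ∧ ∀ v : Fin 8 → ℂ, ell o 0 v ≠ 0 →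
      (∃ i, ell o (ix i) v ≠ 0) → eval (fun i => ell o (ix i) v / ell o 0 v) G ≠ 0 →
      lineLen XX o v ≤ 1 := by
  obtain ⟨G, hG0, hG⟩ := core o hD h7
  refine ⟨G, hG0, fun v h0 ⟨i, hi⟩ hv => ?_⟩
  set μ : ℂ := ell o 0 v / o 7 with hμ
  have hμ0 : μ ≠ 0 := div_ne_zero h0 h7
  let A := Polynomial ℂ ⧸ lineIdeal o v
  let T : A := Ideal.Quotient.mk (lineIdeal o v) Polynomial.X
  obtain ⟨c, hc⟩ := hG A (algebraMap ℂ A μ⁻¹ * (T + algebraMap ℂ A (v 7 / o 7)))
    (fun i => ell o (ix i) v / ell o 0 v)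
    (fun h => div_ne_zero hi h0 (congrFun h i)) hv (fun k => by
      obtain ⟨d, hd⟩ := hom_rel k
      have hmem : (rel X k : MvPolynomial (Fin 8) ℂ) ∈ homIdeal XX := by
        rw [homIdeal_XX]; exact Phi_rel k
      have h1 : Ideal.Quotient.mkₐ ℂ (lineIdeal o v) (aeval (R := ℂ)
          (fun i => Polynomial.C (v i) + Polynomial.C (o i) * Polynomial.X) (rel X k)) = 0 :=
        Ideal.Quotient.eq_zero_iff_mem.mpr (Ideal.mem_map_of_mem _ hmem)
      rw [← AlgHom.comp_apply, MvPolynomial.comp_aeval] at h1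
      have h2 := aeval_smul_hom hd (algebraMap ℂ A μ⁻¹) (fun i => Ideal.Quotient.mkₐ ℂ
        (lineIdeal o v) (Polynomial.C (v i) + Polynomial.C (o i) * Polynomial.X))
      rw [h1, mul_zero] at h2
      have h3 := map_rel (aeval (R := ℂ) (fun i => algebraMap ℂ A μ⁻¹ * Ideal.Quotient.mkₐ ℂ
        (lineIdeal o v) (Polynomial.C (v i) + Polynomial.C (o i) * Polynomial.X))).toRingHom X k
      refine Eq.trans ?_ (h3.symm.trans h2)
      congr 1
      funext j
      have e1 : pt (fun i => ell o (ix i) v / ell o 0 v) j + o j * (μ⁻¹ * (v 7 / o 7)) =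
          μ⁻¹ * v j := by
        have h0' := h0
        rw [ell_apply] at h0'
        fin_cases j <;> simp [pt, ix, hμ, ell_apply] <;> field_simp <;> ring
      have e2 : Ideal.Quotient.mkₐ ℂ (lineIdeal o v)
          (Polynomial.C (v j) + Polynomial.C (o j) * Polynomial.X) =
          algebraMap ℂ A (v j) + algebraMap ℂ A (o j) * T := rfl
      have e3 := congrArg (algebraMap ℂ A) e1
      simp only [map_add, map_mul] at e3
      simp only [AlgHom.toRingHom_eq_coe, RingHom.coe_coe, aeval_X, e2]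
      linear_combination e3)
  refine lineLen_le_one o v (μ * c - v 7 / o 7) ?_
  have e : algebraMap ℂ A μ * algebraMap ℂ A μ⁻¹ = 1 := by
    rw [← map_mul, mul_inv_cancel₀ hμ0, map_one]
  show T = algebraMap ℂ A (μ * c - v 7 / o 7)
  rw [map_sub, map_mul]
  linear_combination algebraMap ℂ A μ * hc - (T + algebraMap ℂ A (v 7 / o 7)) * e

theorem disconnected (O : PP 7) (hD : rD O.rep ≠ 0) (h7 : O.rep 7 ≠ 0)
    (π : (Fin 8 → ℂ) →ₗ[ℂ] (Fin 7 → ℂ)) (hs : Function.Surjective π)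
    (hk : LinearMap.ker π = Submodule.span ℂ {O.rep}) :
    ¬ @IsPreconnected _ (zar 6) (multLocus XX O π 2) := by
  let := zar 6
  set o := O.rep with ho
  obtain ⟨G, hG0, hG⟩ := isolated o hD h7
  obtain ⟨s, hs'⟩ := π.exists_rightInverse_of_surjective (LinearMap.range_eq_top.mpr hs)
  have hs2 : ∀ y, π (s y) = y := fun y => LinearMap.congr_fun hs' y
  choose L hL1 hL2 using fun i => exists_form ((ell o i).comp s)
  have hL : ∀ i v, eval (π v) (L i) = ell o i v := by
    intro i v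
    have : s (π v) - v ∈ LinearMap.ker π := by
      rw [LinearMap.mem_ker, map_sub, hs2, sub_self]
    rw [hk, Submodule.mem_span_singleton] at this
    obtain ⟨c, hc⟩ := this
    have e : s (π v) = v + c • o := by rw [hc]; abel
    rw [hL2, LinearMap.comp_apply, e, map_add, map_smul, ell_apply o o]
    simp [mul_comm]
  obtain ⟨d, H, hH, hH2⟩ := exists_homog (L 0) (fun i => L (ix i)) (hL1 0) (fun i => hL1 _) G
  have hne : ∀ v i, ell o i v ≠ 0 → π v ≠ 0 := by
    intro v i h h0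
    apply h
    rw [← hL, h0, hL2, map_zero]
  have hex : ∃ i, o (ix i) ≠ 0 := by
    by_contra h
    push Not at h
    apply hD
    have h1 := h 0
    have h2 := h 1
    simp only [ix, Matrix.cons_val_zero, Matrix.cons_val_one] at h1 h2
    simp [rD, h1, h2]
  obtain ⟨i0, hi0⟩ := hex
  have hix : ∀ i, ix i ≠ 0 ∧ ix i ≠ 7 := by decide
  have mem : ∀ (k : Fin 8) (hk0 : π (Pi.single k 1) ≠ 0),
      (∀ a : ℂ, a ≠ 0 → ((2 : ℕ) : Cardinal) ≤ lineLen XX o (Pi.single k a)) →
      ∃ a : ℂ, a ≠ 0 ∧ π (Pi.single k a) = (Projectivization.mk ℂ _ hk0).rep ∧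
        Projectivization.mk ℂ _ hk0 ∈ multLocus XX O π 2 := by
    intro k hk0 h
    obtain ⟨a, ha⟩ := Projectivization.exists_smul_eq_mk_rep ℂ _ hk0
    have e : π (Pi.single k (a : ℂ)) = (Projectivization.mk ℂ _ hk0).rep := by
      rw [← ha, Units.smul_def, ← map_smul, ← Pi.single_smul', smul_eq_mul, mul_one]
    exact ⟨a, a.ne_zero, e, _, e, h a a.ne_zero⟩
  obtain ⟨a, ha, ea, ma⟩ := mem 0 (hne _ 0 (by simpa [ell_apply] using h7))
    (fun a ha => two_le_lineLen o _ fun d F hd hF => jet0 a ha hd hF o)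
  obtain ⟨b, hb, eb, mb⟩ := mem 7 (hne _ (ix i0) (by simpa [ell_apply, (hix i0).2] using hi0))
    (fun a ha => two_le_lineLen o _ fun d F hd hF => jet7 a ha hd hF o)
  have cover : ∀ (y : PP 6) (v : Fin 8 → ℂ), π v = y.rep → ell o 0 v ≠ 0 →
      (∀ i, ell o (ix i) v = 0) → y ∈ DD (L 0 * H) := by
    intro y v hv h0 h
    have h0' : eval (π v) (L 0) ≠ 0 := by rwa [hL]
    rw [DD, Set.mem_ofPred_eq, ← hv, map_mul, hH2 _ h0']
    refine mul_ne_zero h0' (mul_ne_zero (pow_ne_zero _ h0') ?_)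
    simp only [hL, h, zero_div]
    rw [show (fun _ : Fin 6 => (0 : ℂ)) = 0 from rfl, hG0]
    exact one_ne_zero
  intro hc
  obtain ⟨y, ⟨v, hv, hlen⟩, hy1, hy2⟩ := hc (DD (L 0 * H)) (⋃ i, DD (L (ix i)))
    (isOpen_DD ((hL1 0).mul hH)) (isOpen_iUnion fun i => isOpen_DD (hL1 _))
    (by
      rintro y ⟨v, hv, -⟩
      by_cases h : ∀ i, ell o (ix i) v = 0
      · refine Or.inl (cover y v hv (fun h0 => y.rep_nonzero ?_) h)
        rw [← hv, ← LinearMap.mem_ker, hk, Submodule.mem_span_singleton]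
        refine ⟨v 7 / o 7, funext fun j => ?_⟩
        have h1 := h 0
        have h2 := h 1
        have h3 := h 2
        have h4 := h 3
        have h5 := h 4
        have h6 := h 5
        simp only [ell_apply, ix] at h0 h1 h2 h3 h4 h5 h6
        simp at h1 h2 h3 h4 h5 h6
        fin_cases j <;> simp <;> field_simp
        · linear_combination -h0
        · linear_combination -h1
        · linear_combination -h2
        · linear_combination -h3
        · linear_combination -h4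
        · linear_combination -h5
        · linear_combination -h6
      · push Not at h
        obtain ⟨i, hi⟩ := h
        refine Or.inr (Set.mem_iUnion.mpr ⟨i, ?_⟩)
        rw [DD, Set.mem_ofPred_eq, ← hv, hL]
        exact hi)
    ⟨_, ma, cover _ _ ea (by simpa [ell_apply] using ⟨h7, ha⟩)
      (fun i => by simp [ell_apply, (hix i).1])⟩
    ⟨_, mb, Set.mem_iUnion.mpr ⟨i0, by
      rw [DD, Set.mem_ofPred_eq, ← eb, hL]
      simpa [ell_apply, (hix i0).2] using ⟨hi0, hb⟩⟩⟩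
  rw [DD, Set.mem_ofPred_eq, ← hv, map_mul] at hy1
  have h0 := left_ne_zero_of_mul hy1
  have h1 := right_ne_zero_of_mul hy1
  rw [hH2 _ h0] at h1
  have h2 := right_ne_zero_of_mul h1
  simp only [hL] at h0 h2
  obtain ⟨i, hi⟩ := Set.mem_iUnion.mp hy2
  rw [DD, Set.mem_ofPred_eq, ← hv, hL] at hi
  have := hlen.trans (hG v h0 ⟨i, hi⟩ h2)
  norm_num at this

theorem main : ∃ X : Set (PP 7), IsVariety X 4 ∧ Nondeg X ∧
    ∃ U : Set (PP 7), @IsOpen _ (zar 7) U ∧ @Dense _ (zar 7) U ∧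
      ∀ O ∈ U, O ∉ X ∧ ∀ π : (Fin 8 → ℂ) →ₗ[ℂ] (Fin 7 → ℂ), Function.Surjective π →
        LinearMap.ker π = Submodule.span ℂ {O.rep} →
        ¬ @IsPreconnected _ (zar 6) (multLocus X O π 2) := by
  obtain ⟨d, hd⟩ := hom_rel 0
  have hd' : (rD X : MvPolynomial (Fin 8) ℂ).IsHomogeneous d := hd
  have hev : ∀ v : Fin 8 → ℂ, eval v (rD X) = rD v := by
    intro v
    rw [map_rD (eval v)]
    simp
  refine ⟨XX, ⟨closed_XX, irred_XX, dim_XX⟩, nondeg_XX, DD (rD X * X 7),
    isOpen_DD (hd'.mul (isHomogeneous_X ℂ 7)), dense_DD (hd'.mul (isHomogeneous_X ℂ 7)) ?_, ?_⟩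
  · intro h
    have := congrArg (eval (![0, 0, 1, 0, 1, 0, 1, 1] : Fin 8 → ℂ)) h
    rw [map_mul, hev] at this
    simp [rD] at this
  · intro O hO
    rw [DD, Set.mem_ofPred_eq, map_mul, hev, eval_X] at hO
    refine ⟨fun h => left_ne_zero_of_mul hO ?_,
      disconnected O (left_ne_zero_of_mul hO) (right_ne_zero_of_mul hO)⟩
    rw [← hev]
    exact h d _ hd' (Phi_rel 0)

end Pool.Agent.H569Z.Zak
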