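import Pool.Agent.H569Z.Zak.Defs

namespace Pool.Agent.H569Z.Zak

open MvPolynomial

theorem aeval_smul_hom {σ A : Type} [CommRing A] [Algebra ℂ A] {F : MvPolynomial σ ℂ} {d : ℕ}
    (hF : F.IsHomogeneous d) (c : A) (v : σ → A) :
    aeval (fun i => c * v i) F = c ^ d * aeval v F := by
  classical
  rw [F.as_sum, map_sum, map_sum, Finset.mul_sum]
  refine Finset.sum_congr rfl fun m hm => ?_
  have hd : m.degree = d := by
    have := hF (mem_support_iff.mp hm)
    rw [Finsupp.degree_eq_weight_one]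
    exact this
  rw [aeval_monomial, aeval_monomial, ← hd]
  simp only [Finsupp.prod, mul_pow, Finset.prod_mul_distrib, Finset.prod_pow_eq_pow_sum]
  rw [Finsupp.degree_apply]
  ring

theorem eval_smul_hom {σ : Type} {F : MvPolynomial σ ℂ} {d : ℕ}
    (hF : F.IsHomogeneous d) (c : ℂ) (v : σ → ℂ) :
    eval (c • v) F = c ^ d * eval v F := by
  have := aeval_smul_hom hF c v
  exact this

theorem eval_rep_ne {N d : ℕ} {F : MvPolynomial (Fin (N + 1)) ℂ} (hF : F.IsHomogeneous d)
    (v : Fin (N + 1) → ℂ) (hv : v ≠ 0) :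
    eval (Projectivization.mk ℂ v hv).rep F = 0 ↔ eval v F = 0 := by
  obtain ⟨a, ha⟩ := Projectivization.exists_smul_eq_mk_rep ℂ v hv
  rw [← ha, Units.smul_def, eval_smul_hom hF, mul_eq_zero]
  exact or_iff_right (pow_ne_zero _ a.ne_zero)

/-- basic open set -/
def DD {N : ℕ} (F : MvPolynomial (Fin (N + 1)) ℂ) : Set (PP N) := {p | eval p.rep F ≠ 0}

theorem isOpen_DD {N d : ℕ} {F : MvPolynomial (Fin (N + 1)) ℂ} (hF : F.IsHomogeneous d) :
    @IsOpen _ (zar N) (DD F) :=
  TopologicalSpace.GenerateOpen.basic _ ⟨d, F, hF, rfl⟩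

theorem exists_DD {N : ℕ} {U : Set (PP N)} (hU : @IsOpen _ (zar N) U) :
    ∀ p ∈ U, ∃ (d : ℕ) (F : MvPolynomial (Fin (N + 1)) ℂ), F.IsHomogeneous d ∧ p ∈ DD F ∧
      DD F ⊆ U := by
  induction hU with
  | basic s hs =>
    obtain ⟨d, F, hF, rfl⟩ := hs
    exact fun p hp => ⟨d, F, hF, hp, subset_rfl⟩
  | univ => exact fun p _ => ⟨0, 1, isHomogeneous_one _ _, by simp [DD], Set.subset_univ _⟩
  | inter s t _ _ hs ht =>
    intro p hp
    obtain ⟨d, F, hF, h1, h2⟩ := hs p hp.1
    obtain ⟨e, G, hG, h3, h4⟩ := ht p hp.2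
    refine ⟨d + e, F * G, hF.mul hG, ?_, fun q hq => ?_⟩
    · simp only [DD, Set.mem_ofPred_eq, map_mul] at h1 h3 ⊢
      exact mul_ne_zero h1 h3
    · simp only [DD, Set.mem_ofPred_eq, map_mul] at hq
      exact ⟨h2 (left_ne_zero_of_mul hq), h4 (right_ne_zero_of_mul hq)⟩
  | sUnion S _ hS =>
    rintro p ⟨s, hs, hp⟩
    obtain ⟨d, F, hF, h1, h2⟩ := hS s hs p hp
    exact ⟨d, F, hF, h1, h2.trans (Set.subset_sUnion_of_mem hs)⟩

theorem exists_eval_ne {σ : Type} {F : MvPolynomial σ ℂ} (hF : F ≠ 0) : ∃ v, eval v F ≠ 0 := by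
  by_contra h
  push Not at h
  exact hF (MvPolynomial.funext fun v => by simpa using h v)

theorem dense_DD {N d : ℕ} {F : MvPolynomial (Fin (N + 1)) ℂ} (hF : F.IsHomogeneous d)
    (h0 : F ≠ 0) : @Dense _ (zar N) (DD F) := by
  let := zar N
  rw [dense_iff_inter_open]
  rintro U hU ⟨p, hp⟩
  obtain ⟨e, G, hG, h1, h2⟩ := exists_DD hU p hp
  have hG0 : G ≠ 0 := by
    rintro rfl
    simp [DD] at h1
  obtain ⟨v, hv⟩ := exists_eval_ne (mul_ne_zero (mul_ne_zero hG0 h0) (X_ne_zero (0 : Fin (N + 1))))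
  simp only [map_mul, eval_X] at hv
  have hv0 : v ≠ 0 := by
    rintro rfl
    simp at hv
  refine ⟨Projectivization.mk ℂ v hv0, h2 ?_, ?_⟩
  · exact (eval_rep_ne hG v hv0).not.mpr (left_ne_zero_of_mul (left_ne_zero_of_mul hv))
  · exact (eval_rep_ne hF v hv0).not.mpr (right_ne_zero_of_mul (left_ne_zero_of_mul hv))

/-- homogenisation along linear forms -/
theorem exists_homog {σ τ : Type} (L0 : MvPolynomial σ ℂ) (L : τ → MvPolynomial σ ℂ)
    (h0 : L0.IsHomogeneous 1) (hL : ∀ i, (L i).IsHomogeneous 1) (G : MvPolynomial τ ℂ) :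
    ∃ (d : ℕ) (H : MvPolynomial σ ℂ), H.IsHomogeneous d ∧ ∀ w, eval w L0 ≠ 0 →
      eval w H = eval w L0 ^ d * eval (fun i => eval w (L i) / eval w L0) G := by
  induction G using MvPolynomial.induction_on with
  | C a => exact ⟨0, C a, isHomogeneous_C _ _, fun w _ => by simp⟩
  | add G1 G2 h1 h2 =>
    obtain ⟨e1, H1, k1, h1⟩ := h1
    obtain ⟨e2, H2, k2, h2⟩ := h2
    refine ⟨e1 + e2, L0 ^ e2 * H1 + L0 ^ e1 * H2, ?_, fun w hw => ?_⟩
    · refine IsHomogeneous.add ?_ ?_
      · have := (h0.pow e2).mul k1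
        rwa [one_mul, add_comm] at this
      · have := (h0.pow e1).mul k2
        rwa [one_mul] at this
    · simp only [map_add, map_mul, map_pow, h1 w hw, h2 w hw]
      ring
  | mul_X G t h =>
    obtain ⟨e, H, k, h⟩ := h
    refine ⟨e + 1, H * L t, k.mul (hL t), fun w hw => ?_⟩
    simp only [map_mul, h w hw, eval_X]
    field_simp
    ring

/-- a linear functional as a linear form -/
theorem exists_form {n : ℕ} (l : (Fin n → ℂ) →ₗ[ℂ] ℂ) :
    ∃ L : MvPolynomial (Fin n) ℂ, L.IsHomogeneous 1 ∧ ∀ w, eval w L = l w := by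
  refine ⟨∑ i, C (l (Pi.single i 1)) * X i, ?_, fun w => ?_⟩
  · refine IsHomogeneous.sum _ _ _ fun i _ => ?_
    exact (isHomogeneous_X ℂ i).C_mul _
  · simp only [map_sum, map_mul, eval_C, eval_X]
    conv_rhs => rw [pi_eq_sum_univ' w, map_sum]
    refine Finset.sum_congr rfl fun i _ => ?_
    rw [map_smul, smul_eq_mul, mul_comm]

/-- homogeneous components of a polynomial vanishing on a cone -/
theorem comp_vanish {σ : Type} (F : MvPolynomial σ ℂ) (v : σ → ℂ)
    (h : ∀ c : ℂ, c ≠ 0 → eval (c • v) F = 0) (d : ℕ) : eval v (homogeneousComponent d F) = 0 := by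
  let p : Polynomial ℂ := ∑ i ∈ Finset.range (F.totalDegree + 1),
    Polynomial.monomial i (eval v (homogeneousComponent i F))
  have hp : p = 0 := by
    refine Polynomial.eq_zero_of_infinite_isRoot p ?_
    refine (Set.Finite.infinite_compl (Set.finite_singleton (0 : ℂ))).mono fun c hc => ?_
    have := h c hc
    rw [← sum_homogeneousComponent F, map_sum] at this
    simp only [Set.mem_ofPred_eq, Polynomial.IsRoot, p, Polynomial.eval_finsetSum,
      Polynomial.eval_monomial]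
    rw [← this]
    refine Finset.sum_congr rfl fun i _ => ?_
    rw [eval_smul_hom (homogeneousComponent_isHomogeneous i F), mul_comm]
  by_cases hd : d ∈ Finset.range (F.totalDegree + 1)
  · have := congrArg (fun q => Polynomial.coeff q d) hp
    simp only [p, Polynomial.finsetSum_coeff, Polynomial.coeff_monomial, Polynomial.coeff_zero,
      Finset.sum_ite_eq', if_pos hd] at this
    exact this
  · rw [homogeneousComponent_eq_zero d F (by simpa using hd), map_zero]

end Pool.Agent.H569Z.Zak
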