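import Pool.Agent.H569Z.Zak.Jet
import Pool.Agent.H569Z.Zak.Core
import Pool.Agent.Helper834.EC.Dim1

namespace Pool.Agent.H569Z.Zak

open MvPolynomial

/-- parametrisation of the affine cone over the fourfold -/
def par {C : Type} [CommRing C] (w : Fin 5 → C) : Fin 8 → C :=
  ![w 0, w 1, w 2, w 3, w 0 * w 4 * q1 (w 1) (w 2) (w 3), w 0 * w 4 * q2 (w 1) (w 2) (w 3),
    w 0 * w 4 * q3 (w 1) (w 2) (w 3), w 4 * hh (w 1) (w 2) (w 3)]

theorem map_par {C D : Type} [CommRing C] [CommRing D] (f : C →+* D) (w : Fin 5 → C)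
    (i : Fin 8) : f (par w i) = par (fun j => f (w j)) i := by
  fin_cases i <;> simp [par, q1, q2, q3, hh]

theorem rel_par {C : Type} [CommRing C] (w : Fin 5 → C) (k : Fin 8) : rel (par w) k = 0 := by
  fin_cases k <;> simp [rel, rD, par, q1, q2, q3, hh] <;> ring

/-- pull-back along the parametrisation -/
noncomputable def Phi : MvPolynomial (Fin 8) ℂ →ₐ[ℂ] MvPolynomial (Fin 5) ℂ := aeval (par X)

theorem eval_Phi (w : Fin 5 → ℂ) (F : MvPolynomial (Fin 8) ℂ) :
    eval w (Phi F) = eval (par w) F := by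
  have : (eval w).comp Phi.toRingHom = eval (par w) := by
    ext i
    · simp [Phi]
    · simp only [Phi, AlgHom.toRingHom_eq_coe, RingHom.coe_comp, RingHom.coe_coe,
        Function.comp_apply, aeval_X, eval_X, map_par (eval w)]
  exact DFunLike.congr_fun this F

/-- the fourfold -/
def XX : Set (PP 7) :=
  {p | ∀ (d : ℕ) (F : MvPolynomial (Fin 8) ℂ), F.IsHomogeneous d → Phi F = 0 → eval p.rep F = 0}

theorem par_ne {w : Fin 5 → ℂ} (h : w 0 ≠ 0) : par w ≠ 0 := fun e => h (congrFun e 0)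

theorem mk_mem (w : Fin 5 → ℂ) (h : par w ≠ 0) : Projectivization.mk ℂ (par w) h ∈ XX := by
  intro d F hF h0
  rw [eval_rep_ne hF, ← eval_Phi, h0, map_zero]

theorem Phi_eq_zero {F : MvPolynomial (Fin 8) ℂ}
    (h : ∀ w : Fin 5 → ℂ, w 0 ≠ 0 → eval (par w) F = 0) : Phi F = 0 := by
  have : X 0 * Phi F = 0 := by
    refine MvPolynomial.funext fun w => ?_
    rw [map_mul, eval_X, eval_Phi, map_zero]
    by_cases h0 : w 0 = 0
    · rw [h0, zero_mul]
    · rw [h w h0, mul_zero]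
  exact (mul_eq_zero.mp this).resolve_left (X_ne_zero 0)

theorem Phi_of_vanish {d : ℕ} {F : MvPolynomial (Fin 8) ℂ} (hF : F.IsHomogeneous d)
    (h : ∀ p ∈ XX, eval p.rep F = 0) : Phi F = 0 :=
  Phi_eq_zero fun w hw => (eval_rep_ne hF _ (par_ne hw)).mp (h _ (mk_mem w (par_ne hw)))

theorem smul_par (c : ℂ) (hc : c ≠ 0) (w : Fin 5 → ℂ) :
    c • par w = par ![c * w 0, c * w 1, c * w 2, c * w 3, w 4 / c ^ 5] := by
  funext i
  fin_cases i <;> simp [par, q1, q2, q3, hh] <;> field_simp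

theorem homIdeal_XX : homIdeal XX = RingHom.ker Phi := by
  apply le_antisymm
  · rw [homIdeal, Ideal.span_le]
    rintro F ⟨⟨d, hd⟩, hF⟩
    exact Phi_of_vanish hd hF
  · intro F hF
    rw [← sum_homogeneousComponent F]
    refine Ideal.sum_mem _ fun d _ => Ideal.subset_span
      ⟨⟨d, homogeneousComponent_isHomogeneous d F⟩, fun p hp => ?_⟩
    refine hp d _ (homogeneousComponent_isHomogeneous d F) (Phi_eq_zero fun w _ => ?_)
    refine comp_vanish F _ (fun c hc => ?_) d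
    rw [smul_par c hc, ← eval_Phi, RingHom.mem_ker.mp hF, map_zero]

theorem closed_XX : @IsClosed _ (zar 7) XX := by
  let := zar 7
  rw [← isOpen_compl_iff, isOpen_iff_forall_mem_open]
  intro p hp
  simp only [XX, Set.mem_compl_iff, Set.mem_ofPred_eq, not_forall] at hp
  obtain ⟨d, F, hF, h0, h1⟩ := hp
  exact ⟨DD F, fun q hq hq' => hq (hq' d F hF h0), isOpen_DD hF, h1⟩

theorem irred_XX : @IsIrreducible _ (zar 7) XX := by
  let := zar 7
  refine ⟨⟨_, mk_mem 1 (par_ne one_ne_zero)⟩, ?_⟩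
  rintro U V hU hV ⟨p, hp, hpU⟩ ⟨q, hq, hqV⟩
  obtain ⟨d, F, hF, h1, h2⟩ := exists_DD hU p hpU
  obtain ⟨e, G, hG, h3, h4⟩ := exists_DD hV q hqV
  have hF0 : Phi F ≠ 0 := fun h => h1 (hp d F hF h)
  have hG0 : Phi G ≠ 0 := fun h => h3 (hq e G hG h)
  obtain ⟨w, hw⟩ := exists_eval_ne (mul_ne_zero (mul_ne_zero hF0 hG0) (X_ne_zero (0 : Fin 5)))
  simp only [map_mul, eval_X, eval_Phi] at hw
  have hw0 := par_ne (right_ne_zero_of_mul hw)
  refine ⟨_, mk_mem w hw0, h2 ?_, h4 ?_⟩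
  · exact (eval_rep_ne hF _ hw0).not.mpr (left_ne_zero_of_mul (left_ne_zero_of_mul hw))
  · exact (eval_rep_ne hG _ hw0).not.mpr (right_ne_zero_of_mul (left_ne_zero_of_mul hw))

theorem dim_XX : ringKrullDim (MvPolynomial (Fin 8) ℂ ⧸ homIdeal XX) = ((4 + 1 : ℕ) : WithBot ℕ∞) := by
  rw [homIdeal_XX]
  have hp : (RingHom.ker Phi).IsPrime := RingHom.ker_isPrime _
  obtain ⟨s, h1, h2⟩ := Pool.Agent.Helper834.EC.exists_ringKrullDim_eq_trdeg ℂ
    (MvPolynomial (Fin 8) ℂ ⧸ RingHom.ker Phi)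
  have hle : Algebra.trdeg ℂ (MvPolynomial (Fin 8) ℂ ⧸ RingHom.ker Phi) ≤ 5 := by
    have := trdeg_le_of_injective (Ideal.kerLiftAlg Phi) (Ideal.kerLiftAlg_injective Phi)
    rw [MvPolynomial.trdeg_of_isDomain] at this
    simpa using this
  have hge : (5 : Cardinal) ≤ Algebra.trdeg ℂ (MvPolynomial (Fin 8) ℂ ⧸ RingHom.ker Phi) := by
    let e : Fin 5 → Fin 8 := ![0, 1, 2, 3, 7]
    have hai : AlgebraicIndependent ℂ
        (fun i => Ideal.Quotient.mkₐ ℂ (RingHom.ker Phi) (X (e i))) := by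
      rw [algebraicIndependent_iff]
      intro G hG
      rw [← MvPolynomial.comp_aeval, AlgHom.comp_apply, Ideal.Quotient.mkₐ_eq_mk,
        Ideal.Quotient.eq_zero_iff_mem, RingHom.mem_ker] at hG
      have h0 : hh (X 1) (X 2) (X 3) * G = 0 := by
        refine MvPolynomial.funext fun w => ?_
        have e1 : eval w (hh (X 1) (X 2) (X 3)) = hh (w 1) (w 2) (w 3) := by simp [hh]
        rw [map_mul, map_zero, e1]
        by_cases h : hh (w 1) (w 2) (w 3) = 0
        · rw [h, zero_mul]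
        · have := congrArg (eval ![w 0, w 1, w 2, w 3, w 4 / hh (w 1) (w 2) (w 3)]) hG
          rw [eval_Phi, map_zero, ← coe_aeval_eq_eval] at this
          change aeval _ (aeval _ G) = 0 at this
          rw [← AlgHom.comp_apply, MvPolynomial.comp_aeval] at this
          have e2 : (fun i => aeval (R := ℂ)
              (par ![w 0, w 1, w 2, w 3, w 4 / hh (w 1) (w 2) (w 3)]) (X (e i))) = w := by
            funext i
            fin_cases i <;> simp [e, par]
            field_simp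
          rw [e2] at this
          rw [show eval w G = 0 from this, mul_zero]
      refine (mul_eq_zero.mp h0).resolve_left fun h => ?_
      have := congrArg (eval (![0, 1, 0, 1, 0] : Fin 5 → ℂ)) h
      simp [hh] at this
    simpa using hai.cardinalMk_le_trdeg
  have : s = 5 := by
    have := le_antisymm hle hge
    rw [h2] at this
    exact_mod_cast this
  rw [h1, this]

theorem jet0 (a : ℂ) (ha : a ≠ 0) {d : ℕ} {F : MvPolynomial (Fin 8) ℂ} (hd : F.IsHomogeneous d)
    (hF : Phi F = 0) (o : Fin 8 → ℂ) :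
    Polynomial.X ^ 2 ∣ aeval (fun i => Polynomial.C ((Pi.single 0 a : Fin 8 → ℂ) i) +
      Polynomial.C (o i) * Polynomial.X) F := by
  refine jet a ha hd (fun τ δ x y z hτ _ _ => ?_) o
  have := congrArg (eval ![a, τ * x, τ * y, τ * z, δ / (a * τ ^ 4)]) hF
  rw [eval_Phi, map_zero] at this
  refine Eq.trans ?_ this
  congr 2
  funext i
  fin_cases i <;> simp [par, q1, q2, q3, hh] <;> field_simp

theorem jet7 (a : ℂ) (ha : a ≠ 0) {d : ℕ} {F : MvPolynomial (Fin 8) ℂ} (hd : F.IsHomogeneous d)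
    (hF : Phi F = 0) (o : Fin 8 → ℂ) :
    Polynomial.X ^ 2 ∣ aeval (fun i => Polynomial.C ((Pi.single 7 a : Fin 8 → ℂ) i) +
      Polynomial.C (o i) * Polynomial.X) F := by
  have := jet a ha (F := rename (Equiv.swap 0 7) F) hd.rename_isHomogeneous
    (fun τ δ x y z hτ hδ hh0 => by
      have := congrArg (eval ![τ * (τ * (δ * hh x y z / a)), τ * x, τ * y, τ * z,
        a / (τ ^ 6 * hh x y z)]) hF
      rw [eval_Phi, map_zero] at this
      rw [eval_rename]
      refine Eq.trans ?_ this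
      congr 2
      funext i
      have e : hh (τ * x) (τ * y) (τ * z) = τ ^ 6 * hh x y z := by simp only [hh]; ring
      fin_cases i <;> simp [par, e, Equiv.swap_apply_def, q1, q2, q3] <;> field_simp)
    (o ∘ Equiv.swap 0 7)
  rw [aeval_rename] at this
  convert this using 3
  funext i
  fin_cases i <;> simp [Equiv.swap_apply_def]

theorem nondeg_XX : Nondeg XX := by
  intro l hl
  have hd : (∑ i, C (l i) * X i : MvPolynomial (Fin 8) ℂ).IsHomogeneous 1 :=
    IsHomogeneous.sum _ _ _ fun i _ => (isHomogeneous_X ℂ i).C_mul _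
  have h0 := Phi_of_vanish hd fun p hp => by simpa using hl p hp
  funext k
  have := Polynomial.X_pow_dvd_iff.mp (jet0 1 one_ne_zero hd h0 (Pi.single k 1)) 1 (by norm_num)
  simp only [map_sum, map_mul, aeval_C, aeval_X, Polynomial.algebraMap_eq,
    Polynomial.finsetSum_coeff, Polynomial.coeff_C_mul, Polynomial.coeff_add,
    Polynomial.coeff_C_succ, Polynomial.coeff_X_one, mul_one, zero_add] at this
  simpa [Pi.single_apply] using this

theorem hom_rel (k : Fin 8) : ∃ d, (rel X k : MvPolynomial (Fin 8) ℂ).IsHomogeneous d := by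
  have h := fun i : Fin 8 => isHomogeneous_X ℂ i
  have h2 := fun i : Fin 8 => (h i).pow 2
  fin_cases k
  · exact ⟨4, (((h2 2).mul (h 4)).mul (h 6)).sub (((h 1).mul (h 3)).mul (h2 5))⟩
  · exact ⟨4, ((h2 0).mul (h2 7)).sub ((((h 1).mul (h 3)).mul (h 4)).mul (h 6))⟩
  · exact ⟨3, (((h 0).mul (h 7)).mul (h 1)).sub (((((h 1).mul (h 3)).add (h2 2)).mul (h 4)).add
      (((h 1).mul (h 2)).mul (h 5)))⟩
  · exact ⟨3, (((h 0).mul (h 7)).mul (h 2)).sub (((h 1).mul (h 3)).mul (h 5))⟩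
  · exact ⟨3, (((h 0).mul (h 7)).mul (h 3)).sub (((((h 1).mul (h 3)).sub (h2 2)).mul (h 6)).sub
      (((h 2).mul (h 3)).mul (h 5)))⟩
  · exact ⟨3, (((h 0).mul (h 7)).mul (h 4)).sub (((((h 1).mul (h 4)).mul (h 6)).sub
      ((h 1).mul (h2 5))).sub (((h 2).mul (h 4)).mul (h 5)))⟩
  · exact ⟨3, (((h 0).mul (h 7)).mul (h 5)).sub (((h 2).mul (h 4)).mul (h 6))⟩
  · exact ⟨3, (((h 0).mul (h 7)).mul (h 6)).sub (((((h 3).mul (h 4)).mul (h 6)).add
      ((h 3).mul (h2 5))).add (((h 2).mul (h 5)).mul (h 6)))⟩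

theorem Phi_rel (k : Fin 8) : Phi (rel X k) = 0 := by
  have := map_rel Phi.toRingHom (X : Fin 8 → MvPolynomial (Fin 8) ℂ) k
  refine this.trans ?_
  refine Eq.trans ?_ (rel_par X k)
  congr 1
  funext i
  simp [Phi]

end Pool.Agent.H569Z.Zak
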